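import Mathlib

set_option autoImplicit false

/-!
# The map `(x, y) ↦ 2 B x + B y` from pairs of bit sequences to the real line
-/

namespace Pool.Agent.R582.Coh

open Cardinal Set

/-- the real number with the digits `x n` in base four -/
noncomputable def B (x : ℕ → Bool) : ℝ := cantorFunction (1 / 4) x

/-- the real number with the digits `2 x n + y n` in base four -/
noncomputable def Ps (x y : ℕ → Bool) : ℝ := 2 * B x + B y

theorem B_inj : Function.Injective B := cantorFunction_injective (by norm_num) (by norm_num)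

theorem B_succ (x : ℕ → Bool) : B x = cond (x 0) 1 0 + 1 / 4 * B fun n => x (n + 1) :=
  cantorFunction_succ x (by norm_num) (by norm_num)

theorem B_nonneg (x : ℕ → Bool) : 0 ≤ B x :=
  tsum_nonneg fun _ => cantorFunctionAux_nonneg (by norm_num)

theorem B_le (x : ℕ → Bool) : B x ≤ 4 / 3 := by
  have h1 : B x ≤ cantorFunction (1 / 4) (fun _ => true) :=
    cantorFunction_le (by norm_num) (by norm_num) fun _ _ => rfl
  have h2 : cantorFunction (1 / 4) (fun _ => true) = 4 / 3 := by
    have h3 := cantorFunction_succ (c := 1 / 4) (fun _ => true) (by norm_num) (by norm_num)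
    simp only [cond_true] at h3
    linarith
  rw [h2] at h1
  exact h1

theorem continuous_B : Continuous B := by
  unfold B cantorFunction
  refine continuous_tsum (u := fun n => (1 / 4 : ℝ) ^ n) ?_ ?_ ?_
  · intro n
    unfold cantorFunctionAux
    exact (continuous_of_discreteTopology (f := fun b : Bool => cond b ((1 / 4 : ℝ) ^ n) 0)).comp
      (continuous_apply n)
  · exact summable_geometric_of_lt_one (by norm_num) (by norm_num)
  · intro n x
    unfold cantorFunctionAux
    cases x n
    · simp
    · simp

/-- prepend a finite sequence -/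
def app : List Bool → (ℕ → Bool) → ℕ → Bool
  | [], x => x
  | b :: s, x => fun n => n.casesOn b (app s x)

theorem app_lt (s : List Bool) (x : ℕ → Bool) : ∀ k (h : k < s.length), app s x k = s[k] := by
  induction s with
  | nil => intro k h; simp at h
  | cons b s ih =>
    intro k h
    cases k with
    | zero => rfl
    | succ k =>
      have h' : k < s.length := by simpa using h
      exact ih k h'

theorem B_app (b : Bool) (s : List Bool) (x : ℕ → Bool) :
    B (app (b :: s) x) = cond b 1 0 + 1 / 4 * B (app s x) := by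
  rw [B_succ]
  rfl

theorem Ps_app : ∀ (s t : List Bool), s.length = t.length →
    ∃ C : ℝ, ∀ x y, Ps (app s x) (app t y) = C + (1 / 4) ^ s.length * Ps x y := by
  intro s
  induction s with
  | nil =>
    intro t ht
    have : t = [] := by
      cases t with
      | nil => rfl
      | cons => simp at ht
    subst this
    exact ⟨0, fun x y => by simp [app]⟩
  | cons b s ih =>
    intro t ht
    cases t with
    | nil => simp at ht
    | cons c t =>
      obtain ⟨C, hC⟩ := ih t (by simpa using ht)
      refine ⟨2 * cond b 1 0 + cond c 1 0 + 1 / 4 * C, fun x y => ?_⟩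
      have h := hC x y
      unfold Ps at h ⊢
      rw [B_app, B_app]
      simp only [List.length_cons, pow_succ]
      linear_combination (1 / 4 : ℝ) * h

theorem step_surj (z : ℝ) (hz : 0 ≤ z ∧ z ≤ 4) :
    ∃ a b : Bool, ∃ w : ℝ, (0 ≤ w ∧ w ≤ 4) ∧ z = 2 * cond a 1 0 + cond b 1 0 + 1 / 4 * w := by
  rcases le_total z 1 with h | h
  · exact ⟨false, false, 4 * z, ⟨by linarith, by linarith⟩, by simp⟩
  rcases le_total z 2 with h' | h'
  · exact ⟨false, true, 4 * (z - 1), ⟨by linarith, by linarith⟩, by simp⟩
  rcases le_total z 3 with h'' | h''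
  · exact ⟨true, false, 4 * (z - 2), ⟨by linarith, by linarith⟩, by simp⟩
  · exact ⟨true, true, 4 * (z - 3), ⟨by linarith, by linarith⟩, by simp; ring⟩

theorem Ps_surj (z : ℝ) (hz : 0 ≤ z ∧ z ≤ 4) : ∃ x y, Ps x y = z := by
  classical
  choose a b w hw hz' using fun z : {z : ℝ // 0 ≤ z ∧ z ≤ 4} => step_surj z.1 z.2
  let g : {z : ℝ // 0 ≤ z ∧ z ≤ 4} → {z : ℝ // 0 ≤ z ∧ z ≤ 4} := fun z => ⟨w z, hw z⟩
  let s : ℕ → {z : ℝ // 0 ≤ z ∧ z ≤ 4} := fun n => g^[n] ⟨z, hz⟩
  have hs : ∀ n, s (n + 1) = g (s n) := fun n => Function.iterate_succ_apply' _ _ _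
  have key : ∀ n : ℕ, ∀ m : ℕ, |Ps (fun k => a (s (m + k))) (fun k => b (s (m + k))) - (s m).1| ≤
      8 * (1 / 4) ^ n := by
    intro n
    induction n with
    | zero =>
      intro m
      have h1 := B_nonneg fun k => a (s (m + k))
      have h2 := B_le fun k => a (s (m + k))
      have h3 := B_nonneg fun k => b (s (m + k))
      have h4 := B_le fun k => b (s (m + k))
      have h5 := (s m).2
      unfold Ps
      rw [abs_le]
      constructor <;> simp only [pow_zero] <;> linarith
    | succ n ih =>
      intro m
      have h1 := ih (m + 1)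
      have h2 : Ps (fun k => a (s (m + k))) (fun k => b (s (m + k))) - (s m).1 =
          1 / 4 * (Ps (fun k => a (s (m + 1 + k))) (fun k => b (s (m + 1 + k))) - (s (m + 1)).1) := by
        unfold Ps
        rw [B_succ (fun k => a (s (m + k))), B_succ (fun k => b (s (m + k)))]
        have h3 : ∀ k, m + (k + 1) = m + 1 + k := fun k => by ring
        have e1 : (fun k => a (s (m + (k + 1)))) = fun k => a (s (m + 1 + k)) :=
          funext fun k => by rw [h3]
        have e2 : (fun k => b (s (m + (k + 1)))) = fun k => b (s (m + 1 + k)) :=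
          funext fun k => by rw [h3]
        rw [e1, e2]
        simp only [add_zero]
        have h4 := hz' (s m)
        have h5 : (s (m + 1)).1 = w (s m) := by rw [hs]
        rw [h5]
        linear_combination -h4
      rw [h2, abs_mul, pow_succ]
      have h3 : |(1 / 4 : ℝ)| = 1 / 4 := by norm_num
      rw [h3]
      linarith
  refine ⟨fun k => a (s k), fun k => b (s k), ?_⟩
  have h0 : ∀ n : ℕ, |Ps (fun k => a (s k)) (fun k => b (s k)) - z| ≤ 8 * (1 / 4) ^ n := by
    intro n
    have := key n 0
    simp only [zero_add] at this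
    exact this
  have hlim : Filter.Tendsto (fun n : ℕ => 8 * (1 / 4 : ℝ) ^ n) Filter.atTop (nhds (8 * 0)) :=
    (tendsto_pow_atTop_nhds_zero_of_lt_one (by norm_num) (by norm_num)).const_mul 8
  have h1 := ge_of_tendsto' hlim h0
  rw [mul_zero] at h1
  have h2 := abs_nonneg (Ps (fun k => a (s k)) (fun k => b (s k)) - z)
  have h3 : |Ps (fun k => a (s k)) (fun k => b (s k)) - z| = 0 := le_antisymm h1 h2
  rw [abs_eq_zero] at h3
  linarith

theorem Ps_close : ∀ (m : ℕ) (x y x' y' : ℕ → Bool), (∀ k < m, x k = x' k) → (∀ k < m, y k = y' k) →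
    |Ps x y - Ps x' y'| ≤ 4 * (1 / 4) ^ m := by
  intro m
  induction m with
  | zero =>
    intro x y x' y' _ _
    have h1 := B_nonneg x
    have h2 := B_le x
    have h3 := B_nonneg y
    have h4 := B_le y
    have h1' := B_nonneg x'
    have h2' := B_le x'
    have h3' := B_nonneg y'
    have h4' := B_le y'
    unfold Ps
    rw [abs_le]
    constructor <;> simp only [pow_zero] <;> linarith
  | succ m ih =>
    intro x y x' y' hx hy
    have h1 := ih (fun k => x (k + 1)) (fun k => y (k + 1)) (fun k => x' (k + 1))
      (fun k => y' (k + 1)) (fun k hk => hx _ (by omega)) (fun k hk => hy _ (by omega))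
    have h2 : Ps x y - Ps x' y' = 1 / 4 * (Ps (fun k => x (k + 1)) (fun k => y (k + 1)) -
        Ps (fun k => x' (k + 1)) (fun k => y' (k + 1))) := by
      unfold Ps
      rw [B_succ x, B_succ y, B_succ x', B_succ y', hx 0 (by omega), hy 0 (by omega)]
      ring
    rw [h2, abs_mul, pow_succ]
    have h3 : |(1 / 4 : ℝ)| = 1 / 4 := by norm_num
    rw [h3]
    linarith

/-- `x` extends the finite sequence `s` -/
def IniB (s : List Bool) (x : ℕ → Bool) : Prop := ∀ k (h : k < s.length), x k = s[k]

theorem exists_avoid {F : Set ℝ} (hF : IsClosed F) (hF' : interior F = ∅) (s t : List Bool) :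
    ∃ s' t' : List Bool, s <+: s' ∧ t <+: t' ∧
      ∀ x y, IniB s' x → IniB t' y → Ps x y ∉ F := by
  -- pad
  set m := max s.length t.length with hm
  set s1 := s ++ List.replicate (m - s.length) false with hs1
  set t1 := t ++ List.replicate (m - t.length) false with ht1
  have hls : s1.length = m := by simp [hs1]; omega
  have hlt : t1.length = m := by simp [ht1]; omega
  obtain ⟨C, hC⟩ := Ps_app s1 t1 (by rw [hls, hlt])
  have hex : ∃ x y, Ps (app s1 x) (app t1 y) ∉ F := by
    by_contra hcon
    push Not at hcon
    have hpos : (0 : ℝ) < (1 / 4) ^ s1.length := by positivity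
    have hsub : Ioo C (C + (1 / 4) ^ s1.length * 4) ⊆ F := by
      intro z hz
      obtain ⟨x, y, hxy⟩ := Ps_surj ((z - C) / (1 / 4) ^ s1.length) ⟨by
        apply div_nonneg _ hpos.le
        linarith [hz.1], by
        rw [div_le_iff₀ hpos]
        linarith [hz.2]⟩
      have h1 := hcon x y
      rw [hC, hxy] at h1
      have h2 : C + (1 / 4) ^ s1.length * ((z - C) / (1 / 4) ^ s1.length) = z := by
        field_simp
        ring
      rwa [h2] at h1
    have h3 : Ioo C (C + (1 / 4) ^ s1.length * 4) ⊆ interior F :=
      interior_maximal hsub isOpen_Ioo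
    rw [hF'] at h3
    have h4 : C + (1 / 4) ^ s1.length * 2 ∈ Ioo C (C + (1 / 4) ^ s1.length * 4) :=
      ⟨by linarith, by linarith⟩
    exact h3 h4
  obtain ⟨x, y, hxy⟩ := hex
  obtain ⟨ε, hε, hball⟩ := Metric.isOpen_iff.1 hF.isOpen_compl _ hxy
  have hlim : Filter.Tendsto (fun n : ℕ => 4 * (1 / 4 : ℝ) ^ n) Filter.atTop (nhds (4 * 0)) :=
    (tendsto_pow_atTop_nhds_zero_of_lt_one (by norm_num) (by norm_num)).const_mul 4
  rw [mul_zero] at hlim
  obtain ⟨N, hN⟩ := (hlim.eventually (gt_mem_nhds hε)).exists_forall_of_atTop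
  set n := max N m with hn
  refine ⟨List.ofFn fun k : Fin n => app s1 x k, List.ofFn fun k : Fin n => app t1 y k, ?_, ?_, ?_⟩
  · rw [List.prefix_iff_getElem]
    refine ⟨by simp; omega, fun k hk => ?_⟩
    simp only [List.getElem_ofFn]
    rw [app_lt s1 x k (by omega)]
    simp [hs1, List.getElem_append_left hk]
  · rw [List.prefix_iff_getElem]
    refine ⟨by simp; omega, fun k hk => ?_⟩
    simp only [List.getElem_ofFn]
    rw [app_lt t1 y k (by omega)]
    simp [ht1, List.getElem_append_left hk]
  · intro x' y' hx' hy'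
    have h1 := Ps_close n x' y' (app s1 x) (app t1 y)
      (fun k hk => by
        have := hx' k (by simpa using hk)
        simpa using this)
      (fun k hk => by
        have := hy' k (by simpa using hk)
        simpa using this)
    have h2 : Ps x' y' ∈ Metric.ball (Ps (app s1 x) (app t1 y)) ε := by
      rw [Metric.mem_ball, Real.dist_eq]
      exact lt_of_le_of_lt h1 (hN n (le_max_left _ _))
    exact hball h2

theorem range_B_closed : IsClosed (range B) := (isCompact_range continuous_B).isClosed

theorem range_B_interior : interior (range B) = ∅ := by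
  rw [eq_empty_iff_forall_notMem]
  intro z hz
  obtain ⟨ε, hε, hball⟩ := Metric.isOpen_iff.1 isOpen_interior z hz
  have hsub : Metric.ball z ε ⊆ range B := hball.trans interior_subset
  have hemb : Topology.IsClosedEmbedding B := continuous_B.isClosedEmbedding B_inj
  have hpre : IsPreconnected (B ⁻¹' Metric.ball z ε) := by
    rw [← hemb.isInducing.isPreconnected_image, image_preimage_eq_of_subset hsub]
    exact (convex_ball z ε).isPreconnected
  have hss := hpre.subsingleton
  obtain ⟨x, hx⟩ := hsub (Metric.mem_ball_self hε)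
  obtain ⟨y, hy⟩ := hsub (show z + ε / 2 ∈ Metric.ball z ε by
    rw [Metric.mem_ball, Real.dist_eq, add_sub_cancel_left, abs_of_pos (by linarith)]
    linarith)
  have hxy : x = y := hss (show B x ∈ Metric.ball z ε by rw [hx]; exact Metric.mem_ball_self hε)
    (show B y ∈ Metric.ball z ε by
      rw [hy, Metric.mem_ball, Real.dist_eq, add_sub_cancel_left, abs_of_pos (by linarith)]
      linarith)
  rw [hxy, hy] at hx
  linarith

/-- vertical lines are mapped to meager sets -/
theorem isMeagre_line (x : ℕ → Bool) (S : Set (ℕ → Bool)) : IsMeagre ((fun y => Ps x y) '' S) := by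
  have h1 : (fun y => Ps x y) '' S ⊆ (fun r : ℝ => 2 * B x + r) '' range B := by
    rintro _ ⟨y, _, rfl⟩
    exact ⟨B y, ⟨y, rfl⟩, rfl⟩
  refine IsMeagre.mono h1 ?_
  have h2 : IsNowhereDense ((fun r : ℝ => 2 * B x + r) '' range B) := by
    have hc : IsClosed ((fun r : ℝ => 2 * B x + r) '' range B) :=
      (Homeomorph.addLeft (2 * B x)).isClosedMap _ range_B_closed
    rw [hc.isNowhereDense_iff]
    have h3 := (Homeomorph.addLeft (2 * B x)).image_interior (range B)
    rw [range_B_interior, image_empty] at h3
    exact h3.symm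
  exact h2.isMeagre

end Pool.Agent.R582.Coh
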