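import Mathlib
import Pool.Agent.R582.Coh.Real

set_option autoImplicit false

/-!
# A Luzin set of size `cov(M)` which is a small union of meager sets
-/

namespace Pool.Agent.R582.Coh

open Cardinal Set

/-- `x` extends the finite sequence `s`. -/
def Ini (s : List Bool) (x : ℕ → Prop) : Prop := ∀ k (h : k < s.length), (x k ↔ s[k] = true)

/-- The hypothesis, for a set `K`, a linearly ordered set `W` and maps `ρ : K → W`, `ι : W → K`:
* no set `{x | ρ x ≤ w}` can be mapped onto `K`, and neither can `W`;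
* `ι` is injective, and every sequence in `W` is bounded;
* `K` can be mapped onto the set of all subsets of `ℕ`;
* there is a family `c` of different subsets of `ℕ` indexed by `K` such that for every sequence
  `D n` of dense sets of pairs of finite sequences of bits there is a sequence `a` in `K` such that
  for all different `i, j` not in the range of `a` the pair `(c i, c j)` meets every `D n`. -/
def Hypothesis {K W : Type} [LinearOrder W] (ρ : K → W) (ι : W → K) : Prop :=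
  (∀ w : W, ¬ ∃ f : {x // ρ x ≤ w} → K, Function.Surjective f) ∧
  (¬ ∃ f : W → K, Function.Surjective f) ∧
  Function.Injective ι ∧
  (∀ a : ℕ → W, ∃ b, ∀ n, a n ≤ b) ∧
  (∃ F : K → ℕ → Prop, ∀ x : ℕ → Prop, ∃ k, ∀ n, (x n ↔ F k n)) ∧
  ∃ c : K → ℕ → Prop, (∀ i j, i ≠ j → ¬ ∀ n, (c i n ↔ c j n)) ∧
    ∀ D : ℕ → List Bool → List Bool → Prop,
      (∀ n s t, ∃ s' t', (s <+: s' ∧ t <+: t') ∧ D n s' t') →
      ∃ a : ℕ → K, ∀ i j, i ≠ j → (∀ n, a n ≠ i) → (∀ n, a n ≠ j) →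
        ∀ n, ∃ s t, D n s t ∧ Ini s (c i) ∧ Ini t (c j)

/-- `cov(M)`: the least cardinality of a family of meager sets of real numbers which covers the
real line. -/
noncomputable def covM : Cardinal.{0} :=
  sInf {κ | ∃ F : Set (Set ℝ), (∀ M ∈ F, IsMeagre M) ∧ ⋃₀ F = Set.univ ∧ #F = κ}

/-- `X` is a `κ`-Luzin set. -/
def IsLuzin (κ : Cardinal.{0}) (X : Set ℝ) : Prop :=
  κ ≤ #X ∧ ∀ M : Set ℝ, IsMeagre M → #(X ∩ M : Set ℝ) < κ

open Classical in
/-- a subset of `ℕ` as a sequence of bits -/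
noncomputable def bl (x : ℕ → Prop) : ℕ → Bool := fun n => decide (x n)

theorem iniB_bl {s : List Bool} {x : ℕ → Prop} (h : Ini s x) : IniB s (bl x) := by
  intro k hk
  have h1 := h k hk
  unfold bl
  by_cases hx : x k
  · rw [h1.1 hx]; simp [hx]
  · have h2 : ¬ s[k] = true := fun h' => hx (h1.2 h')
    have h3 : s[k] = false := by simpa using h2
    rw [h3]; simp [hx]

theorem lt_of_no_surj {X Y : Type} [Nonempty Y] (h : ¬ ∃ f : X → Y, Function.Surjective f) :
    #X < #Y := by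
  by_contra hcon
  rw [not_lt] at hcon
  obtain ⟨e⟩ := (Cardinal.le_def _ _).1 hcon
  exact h ⟨Function.invFun e, Function.invFun_surjective e.injective⟩

theorem exists_closed_cover {M : Set ℝ} (hM : IsMeagre M) :
    ∃ F : ℕ → Set ℝ, (∀ n, IsClosed (F n) ∧ interior (F n) = ∅) ∧ M ⊆ ⋃ n, F n := by
  rw [isMeagre_iff_countable_union_isNowhereDense] at hM
  obtain ⟨S, hS, hSc, hMS⟩ := hM
  rcases S.eq_empty_or_nonempty with rfl | hne
  · refine ⟨fun _ => ∅, fun _ => ⟨isClosed_empty, interior_empty⟩, ?_⟩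
    intro x hx
    have := hMS hx
    simp at this
  · obtain ⟨f, hf⟩ := hSc.exists_eq_range hne
    refine ⟨fun n => closure (f n), fun n => ⟨isClosed_closure, ?_⟩, ?_⟩
    · exact hS (f n) (hf ▸ ⟨n, rfl⟩)
    · intro x hx
      obtain ⟨s, hs, hxs⟩ := hMS hx
      rw [hf] at hs
      obtain ⟨n, rfl⟩ := hs
      exact mem_iUnion.2 ⟨n, subset_closure hxs⟩

theorem luzin {K W : Type} [LinearOrder W] {ρ : K → W} {ι : W → K} (H : Hypothesis ρ ι) :
    (ℵ₀ < covM ∧ covM.IsSingular) ∧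
    ∃ X : Set ℝ, IsLuzin covM X ∧
      ∃ F : Set (Set ℝ), #F < covM ∧ (∀ M ∈ F, IsMeagre M) ∧ X = ⋃₀ F := by
  classical
  obtain ⟨h1, h2, hι, h3, ⟨F, hF⟩, c, hc, hgen⟩ := H
  have hne : Nonempty K := ⟨(hF fun _ => True).choose⟩
  -- the continuum
  have hcK : (𝔠 : Cardinal.{0}) ≤ #K := by
    have hs : Function.Surjective fun k : K => {n | F k n} := by
      intro S
      obtain ⟨k, hk⟩ := hF fun n => n ∈ S
      exact ⟨k, by ext n; exact (hk n).symm⟩
    have h4 := mk_le_of_surjective hs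
    rwa [Cardinal.mk_set, Cardinal.mk_nat, two_power_aleph0] at h4
  have hK : ℵ₀ < #K := (Cardinal.aleph0_lt_continuum).trans_le hcK
  have hKinf : ℵ₀ ≤ #K := hK.le
  have hW : #W < #K := lt_of_no_surj h2
  have hρ : ∀ w, #{x | ρ x ≤ w} < #K := fun w => lt_of_no_surj (h1 w)
  -- the key property
  have key : ∀ M : Set ℝ, IsMeagre M → ∃ A : Set K, A.Countable ∧
      ∀ i j, i ≠ j → i ∉ A → j ∉ A → Ps (bl (c i)) (bl (c j)) ∉ M := by
    intro M hM
    obtain ⟨G, hG, hMG⟩ := exists_closed_cover hM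
    obtain ⟨a, ha⟩ := hgen (fun n s t => ∀ x y, IniB s x → IniB t y → Ps x y ∉ G n) (by
      intro n s t
      obtain ⟨s', t', hs, ht, h⟩ := exists_avoid (hG n).1 (hG n).2 s t
      exact ⟨s', t', ⟨hs, ht⟩, h⟩)
    refine ⟨range a, countable_range a, fun i j hij hi hj hmem => ?_⟩
    obtain ⟨n, hn⟩ := mem_iUnion.1 (hMG hmem)
    obtain ⟨s, t, hD, hsi, htj⟩ := ha i j hij (fun n hn => hi ⟨n, hn⟩) (fun n hn => hj ⟨n, hn⟩) n
    exact hD _ _ (iniB_bl hsi) (iniB_bl htj) hn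
  have hblc : Function.Injective fun i => bl (c i) := by
    intro i j hij
    by_contra hne
    apply hc i j hne
    intro n
    have h4 := congrFun hij n
    simp only [bl] at h4
    exact decide_eq_decide.1 h4
  -- the covering number
  have hmem : #ℝ ∈ {κ : Cardinal.{0} | ∃ F : Set (Set ℝ), (∀ M ∈ F, IsMeagre M) ∧ ⋃₀ F = Set.univ ∧
      #F = κ} := by
    refine ⟨range fun x : ℝ => ({x} : Set ℝ), ?_, ?_, ?_⟩
    · rintro _ ⟨x, rfl⟩
      refine IsNowhereDense.isMeagre ?_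
      rw [isClosed_singleton.isNowhereDense_iff]
      exact interior_singleton x
    · rw [eq_univ_iff_forall]
      intro x
      exact ⟨{x}, ⟨x, rfl⟩, rfl⟩
    · exact Cardinal.mk_range_eq _ fun x y h => by simpa using h
  have hlow : ∀ κ ∈ {κ : Cardinal.{0} | ∃ F : Set (Set ℝ), (∀ M ∈ F, IsMeagre M) ∧
      ⋃₀ F = Set.univ ∧ #F = κ}, #K ≤ κ := by
    rintro κ ⟨G, hG, hU, rfl⟩
    by_contra hcon
    rw [not_le] at hcon
    choose A hAc hA using fun M : G => key M.1 (hG M.1 M.2)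
    have hU' : #(⋃ M : G, A M) < #K := by
      calc #(⋃ M : G, A M) ≤ Cardinal.sum fun M : G => #(A M) := Cardinal.mk_iUnion_le_sum_mk
        _ ≤ Cardinal.sum fun _ : G => ℵ₀ :=
            Cardinal.sum_le_sum _ _ fun M => Cardinal.le_aleph0_iff_set_countable.2 (hAc M)
        _ = #G * ℵ₀ := by simp
        _ < #K := Cardinal.mul_lt_of_lt hKinf hcon hK
    obtain ⟨i, j, hi, hj, hij⟩ : ∃ i j, i ∉ (⋃ M : G, A M) ∧ j ∉ (⋃ M : G, A M) ∧ i ≠ j := by
      by_contra hcon2
      push Not at hcon2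
      have hss : (⋃ M : G, A M)ᶜ.Subsingleton := fun x hx y hy => hcon2 x y hx hy
      have h4 : #K ≤ #(⋃ M : G, A M) + 1 := by
        rw [← Cardinal.mk_univ, ← Set.union_compl_self (⋃ M : G, A M)]
        exact (Cardinal.mk_union_le _ _).trans
          (add_le_add_right (Cardinal.mk_le_one_iff_set_subsingleton.2 hss) _)
      exact absurd h4 (not_le.2 (Cardinal.add_lt_of_lt hKinf hU'
        (Cardinal.one_lt_aleph0.trans hK)))
    have h5 : Ps (bl (c i)) (bl (c j)) ∈ ⋃₀ G := by rw [hU]; trivial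
    obtain ⟨M, hM, h6⟩ := h5
    exact hA ⟨M, hM⟩ i j hij (fun h => hi (mem_iUnion.2 ⟨_, h⟩)) (fun h => hj (mem_iUnion.2 ⟨_, h⟩)) h6
  have hcov : covM = #K := by
    refine le_antisymm ?_ (le_csInf ⟨_, hmem⟩ hlow)
    exact (csInf_le' hmem).trans (Cardinal.mk_real ▸ hcK)
  -- singularity
  have hsing : (#K).IsSingular := by
    refine IsSingular.of_not_isRegular hKinf fun hreg => ?_
    have hU : (⋃ w : W, {x | ρ x ≤ w}) = Set.univ := by
      rw [eq_univ_iff_forall]
      intro x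
      exact mem_iUnion.2 ⟨ρ x, le_refl (ρ x)⟩
    have h4 : #(⋃ w : W, {x | ρ x ≤ w}) < #K := by
      refine lt_of_le_of_lt Cardinal.mk_iUnion_le_sum_mk ?_
      exact Cardinal.sum_lt_of_isRegular (c := #K) hreg hW hρ
    rw [hU, Cardinal.mk_univ] at h4
    exact lt_irrefl _ h4
  rw [hcov]
  refine ⟨⟨hK, hsing⟩, ?_⟩
  set g : K → ℝ := fun j => Ps (bl (c (ι (ρ j)))) (bl (c j)) with hg
  refine ⟨range g, ⟨?_, ?_⟩, range fun w : W => g '' {j | ρ j = w}, ?_, ?_, ?_⟩
  · -- the size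
    by_contra hcon
    rw [not_le] at hcon
    have h4 : ∀ w, #{j | ρ j = w} ≤ #(range g) := by
      intro w
      refine Cardinal.mk_le_of_injective (f := fun j : {j | ρ j = w} => (⟨g j.1, ⟨j.1, rfl⟩⟩ : range g)) ?_
      rintro ⟨i, hi⟩ ⟨j, hj⟩ hij
      have h5 : g i = g j := congrArg Subtype.val hij
      have hi' : ρ i = w := hi
      have hj' : ρ j = w := hj
      simp only [hg, hi', hj', Ps] at h5
      have h6 : B (bl (c i)) = B (bl (c j)) := by linarith
      exact Subtype.ext (hblc (B_inj h6))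
    have h5 : #K ≤ #W * #(range g) := by
      have hU : (⋃ w : W, {x | ρ x = w}) = Set.univ := by
        rw [eq_univ_iff_forall]
        intro x
        exact mem_iUnion.2 ⟨ρ x, rfl⟩
      calc #K = #(⋃ w : W, {x | ρ x = w}) := by rw [hU, Cardinal.mk_univ]
        _ ≤ Cardinal.sum fun w : W => #{x | ρ x = w} := Cardinal.mk_iUnion_le_sum_mk
        _ ≤ Cardinal.sum fun _ : W => #(range g) := Cardinal.sum_le_sum _ _ h4
        _ = #W * #(range g) := by simp
    exact absurd h5 (not_le.2 (Cardinal.mul_lt_of_lt hKinf hW hcon))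
  · -- meager sets
    intro M hM
    obtain ⟨A, hAc, hA⟩ := key M hM
    have hAW : (ι ⁻¹' A).Countable := hAc.preimage hι
    obtain ⟨b, hb⟩ : ∃ b, ∀ w ∈ ι ⁻¹' A, w ≤ b := by
      rcases (ι ⁻¹' A).eq_empty_or_nonempty with h | h
      · obtain ⟨b, _⟩ := h3 fun _ => ρ hne.some
        exact ⟨b, fun w hw => by rw [h] at hw; exact absurd hw (notMem_empty w)⟩
      · obtain ⟨f, hf⟩ := hAW.exists_eq_range h
        obtain ⟨b, hb⟩ := h3 f
        refine ⟨b, fun w hw => ?_⟩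
        rw [hf] at hw
        obtain ⟨n, rfl⟩ := hw
        exact hb n
    have hsub : range g ∩ M ⊆ g '' ({j | ρ j ≤ b} ∪ (A ∪ range ι)) := by
      rintro _ ⟨⟨j, rfl⟩, hjM⟩
      refine ⟨j, ?_, rfl⟩
      by_contra hcon
      simp only [mem_union, not_or] at hcon
      obtain ⟨h4, h5, h6⟩ := hcon
      have h7 : ι (ρ j) ∉ A := fun h => h4 (hb _ h)
      exact hA (ι (ρ j)) j (fun h => h6 ⟨_, h⟩) h7 h5 hjM
    refine (Cardinal.mk_le_mk_of_subset hsub).trans_lt (Cardinal.mk_image_le.trans_lt ?_)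
    refine (Cardinal.mk_union_le _ _).trans_lt (Cardinal.add_lt_of_lt hKinf (hρ b) ?_)
    refine (Cardinal.mk_union_le _ _).trans_lt (Cardinal.add_lt_of_lt hKinf ?_ ?_)
    · exact (Cardinal.le_aleph0_iff_set_countable.2 hAc).trans_lt hK
    · exact Cardinal.mk_range_le.trans_lt hW
  · exact Cardinal.mk_range_le.trans_lt hW
  · rintro _ ⟨w, rfl⟩
    refine IsMeagre.mono ?_ (isMeagre_line (bl (c (ι w))) Set.univ)
    rintro _ ⟨j, hj, rfl⟩
    have hj' : ρ j = w := hj
    exact ⟨bl (c j), trivial, by simp only [hg, hj']⟩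
  · ext z
    constructor
    · rintro ⟨j, rfl⟩
      exact ⟨_, ⟨ρ j, rfl⟩, ⟨j, rfl, rfl⟩⟩
    · rintro ⟨_, ⟨w, rfl⟩, ⟨j, _, rfl⟩⟩
      exact ⟨j, rfl⟩

end Pool.Agent.R582.Coh
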