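import Mathlib
import Pool.Agent.R582.Coh.Luzin
import Pool.Agent.H631R2.FLang

set_option autoImplicit false

/-!
# The hypothesis of `luzin` as a sentence of the forcing language
-/

namespace Pool.Agent.R582.Coh

open Cardinal Set
open Pool.Agent.Helper292.SP (fnot fand fall fimp fiff fex fground meets IsFun)
open Pool.Agent.H631R2 (NoOnto PowLE)

/-- The sentence `Ini s x`, where `x` is a name for a subset of `ℕ`. -/
def IniN {P : Type} [Preorder P] (s : List Bool) (x : ℕ → Set P) : Set P :=
  fall fun k : ℕ => fall fun h : k < s.length => fiff (meets (x k)) (fground (s[k] = true))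

/-- The sentence `Hypothesis ρ ι`. -/
def HypothesisN (P : Type) [Preorder P] {K W : Type} [LinearOrder W] (ρ : K → W) (ι : W → K) :
    Set P :=
  fand (fall fun w : W => NoOnto P {x // ρ x ≤ w} K) <|
  fand (NoOnto P W K) <|
  fand (fground (Function.Injective ι)) <|
  fand (fall fun a : ℕ → W → Set P => fimp (IsFun a)
    (fex fun b : W => fall fun n : ℕ => fall fun w : W => fimp (meets (a n w)) (fground (w ≤ b)))) <|
  fand (PowLE P ℕ K) <|
  fex fun c : K → ℕ → Set P => fand
    (fall fun i : K => fall fun j : K => fimp (fground (i ≠ j))
      (fnot (fall fun n : ℕ => fiff (meets (c i n)) (meets (c j n)))))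
    (fall fun D : ℕ → List Bool → List Bool → Set P => fimp
      (fall fun n : ℕ => fall fun s : List Bool => fall fun t : List Bool =>
        fex fun s' : List Bool => fex fun t' : List Bool =>
          fand (fground (s <+: s' ∧ t <+: t')) (meets (D n s' t')))
      (fex fun a : ℕ → K → Set P => fand (IsFun a)
        (fall fun i : K => fall fun j : K => fimp (fground (i ≠ j))
          (fimp (fall fun n : ℕ => fnot (meets (a n i)))
            (fimp (fall fun n : ℕ => fnot (meets (a n j)))
              (fall fun n : ℕ => fex fun s : List Bool => fex fun t : List Bool =>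
                fand (meets (D n s t)) (fand (IniN s (c i)) (IniN t (c j)))))))))

end Pool.Agent.R582.Coh
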