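import Mathlib
import Pool.Agent.H631R2.Arith

set_option autoImplicit false

/-!
# Supports of sentences about Cohen reals
-/

namespace Pool.Agent.R582.Coh

open Cardinal Set
open Pool.Agent.Helper292.SP (fnot fand fall fimp fiff fex fground meets IsFun mem_fex mem_fimp
  not_fex down_meets meets_cst)
open Pool.Agent.H631R2 (CCC NoOnto PowLE meets_of_dense mem_fiff mem_fiff_meets)

section

variable {P : Type} [Preorder P]

theorem down_fnot {φ : Set P} {p q : P} (h : p ∈ fnot φ) (hq : q ≤ p) : q ∈ fnot φ :=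
  fun r hr => h r (hr.trans hq)

theorem meets_self {N : Set P} {p s : P} (hs : s ∈ N) (h : p ≤ s) : p ∈ meets N :=
  fun q hq => ⟨q, le_rfl, s, hs, hq.trans h⟩

theorem not_mem_fnot {φ : Set P} {p : P} (h : p ∉ fnot φ) : ∃ q ≤ p, q ∈ φ := by
  by_contra hcon
  push Not at hcon
  exact h fun q hq => hcon q hq

theorem noOnto' (hP : CCC P) {X Y : Type} (hY : ℵ₀ < #Y) (hXY : #X < #Y) (p : P) :
    p ∈ NoOnto P X Y := by
  refine not_fex fun q _ F hF => ?_
  have h1 : ∀ y : Y, ∃ r ≤ q, ∃ x, r ∈ meets (F x y) := fun y => mem_fex.mp (hF.2 y) q le_rfl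
  choose r hr x hx using h1
  have h2 := hP.mk_le x r (by
    rintro y y' hne hxx ⟨s, hs, hs'⟩
    apply hne
    refine Pool.Agent.Helper292.SP.IsFun_fun F q hF.1 s (hs.trans (hr y)) (x y) y y'
      (down_meets (hx y) hs) ?_
    rw [hxx]
    exact down_meets (hx y') hs')
  exact absurd h2 (not_le.mpr (Cardinal.mul_lt_of_lt hY.le hXY hY))

/-- the possible values of a function at a point -/
theorem values_countable (hP : CCC P) {X Y : Type} {F : X → Y → Set P} {q : P} (hF : q ∈ IsFun F)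
    (x : X) : {y | ∃ r ≤ q, r ∈ meets (F x y)}.Countable := by
  rw [← Cardinal.le_aleph0_iff_set_countable]
  choose r hr hr' using fun y : {y | ∃ r ≤ q, r ∈ meets (F x y)} => y.2
  have h2 := hP.mk_le (fun _ => PUnit.unit) r (by
    rintro y y' hne _ ⟨s, hs, hs'⟩
    apply hne
    exact Subtype.ext (Pool.Agent.Helper292.SP.IsFun_fun F q hF s (hs.trans (hr y)) x _ _
      (down_meets (hr' y) hs) (down_meets (hr' y') hs')))
  simpa using h2

/-- a countable maximal antichain deciding `meets N` -/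
theorem exists_decider (hP : CCC P) (N : Set P) : ∃ W : Set P, W.Countable ∧
    (∀ w ∈ W, w ∈ meets N ∨ w ∈ fnot (meets N)) ∧ ∀ p, ∃ w ∈ W, ∃ r, r ≤ p ∧ r ≤ w := by
  obtain ⟨W, hW⟩ := zorn_subset {W : Set P | (∀ w ∈ W, w ∈ meets N ∨ w ∈ fnot (meets N)) ∧
    ∀ p ∈ W, ∀ q ∈ W, p ≠ q → ¬ ∃ r, r ≤ p ∧ r ≤ q} (by
    intro c hc hchain
    refine ⟨⋃₀ c, ⟨?_, ?_⟩, fun S hS => subset_sUnion_of_mem hS⟩
    · rintro w ⟨S, hS, hw⟩
      exact (hc hS).1 w hw
    rintro p ⟨S, hS, hp⟩ q ⟨S', hS', hq⟩ hne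
    rcases hchain.total hS hS' with h | h
    · exact (hc hS').2 p (h hp) q hq hne
    · exact (hc hS).2 p hp q (h hq) hne)
  refine ⟨W, Cardinal.le_aleph0_iff_set_countable.1 (hP W hW.prop.2), hW.prop.1, ?_⟩
  intro p
  by_contra hcon
  push Not at hcon
  obtain ⟨u, hu, hu'⟩ : ∃ u ≤ p, u ∈ meets N ∨ u ∈ fnot (meets N) := by
    by_cases h : p ∈ fnot (meets N)
    · exact ⟨p, le_rfl, Or.inr h⟩
    · obtain ⟨q, hq, hq'⟩ := not_mem_fnot h
      exact ⟨q, hq, Or.inl hq'⟩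
  have hno : ∀ w ∈ W, ¬ ∃ r, r ≤ u ∧ r ≤ w := by
    rintro w hw ⟨r, hr, hr'⟩
    exact hcon w hw r (hr.trans hu) hr'
  have h2 : insert u W ∈ {W : Set P | (∀ w ∈ W, w ∈ meets N ∨ w ∈ fnot (meets N)) ∧
      ∀ p ∈ W, ∀ q ∈ W, p ≠ q → ¬ ∃ r, r ≤ p ∧ r ≤ q} := by
    refine ⟨?_, ?_⟩
    · rintro w (rfl | hw)
      · exact hu'
      · exact hW.prop.1 w hw
    rintro p' (rfl | hp) q (rfl | hq) hne ⟨v, hv, hv'⟩
    · exact hne rfl
    · exact hno q hq ⟨v, hv, hv'⟩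
    · exact hno p' hp ⟨v, hv', hv⟩
    · exact hW.prop.2 p' hp q hq hne ⟨v, hv, hv'⟩
  have h3 : u ∈ W := hW.le_of_ge h2 (subset_insert u W) (mem_insert u W)
  exact hno u h3 ⟨u, le_rfl, le_rfl⟩

end

open Pool.Agent.H631R2 (Cond)

variable {I : Type}

open Classical in
/-- the restriction of a condition -/
noncomputable def rst (p : Cond I) (A : Set I) : Cond I where
  s := p.s.filter fun x => x.1 ∈ A
  fn := fun i h1 h2 => p.fn i (Finset.mem_filter.1 h1).1 (Finset.mem_filter.1 h2).1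

theorem mem_rst {p : Cond I} {A : Set I} {x : I × Bool} : x ∈ (rst p A).s ↔ x ∈ p.s ∧ x.1 ∈ A := by
  classical
  exact Finset.mem_filter

theorem le_rst (p : Cond I) (A : Set I) : p ≤ rst p A := fun _ hx => (mem_rst.1 hx).1

theorem rst_anti {p : Cond I} {A A' : Set I} (h : A ⊆ A') : rst p A' ≤ rst p A :=
  fun _ hx => mem_rst.2 ⟨(mem_rst.1 hx).1, h (mem_rst.1 hx).2⟩

theorem rst_mono {p q : Cond I} {A : Set I} (h : q ≤ p) : rst q A ≤ rst p A :=
  fun _ hx => mem_rst.2 ⟨h (mem_rst.1 hx).1, (mem_rst.1 hx).2⟩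

theorem ccc_cond : CCC (Cond I) := Cond.ccc

theorem exists_support (N : Set (Cond I)) : ∃ S : Set I, S.Countable ∧
    ∀ p ∈ meets N, rst p S ∈ meets N := by
  obtain ⟨W, hWc, hW1, hW2⟩ := exists_decider ccc_cond N
  refine ⟨⋃ w ∈ W, w.dom, hWc.biUnion fun w _ => w.dom_finite.countable, fun p hp => ?_⟩
  by_contra hcon
  have h1 : ∃ q ≤ rst p (⋃ w ∈ W, w.dom), ∀ r ≤ q, r ∉ meets N := by
    by_contra h
    push Not at h
    exact hcon (meets_of_dense h)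
  obtain ⟨q, hq, hqN⟩ := h1
  obtain ⟨w, hw, v, hv, hvw⟩ := hW2 q
  have hwN : w ∈ fnot (meets N) := by
    rcases hW1 w hw with h | h
    · exact absurd (down_meets h hvw) (hqN v hv)
    · exact h
  obtain ⟨u, hu, hu'⟩ := Cond.exists_lb (p := w) (q := p) (by
    intro i b c hb hc
    have hi : i ∈ ⋃ w ∈ W, w.dom := mem_biUnion hw (Cond.mem_dom.2 ⟨b, hb⟩)
    have h2 : (i, c) ∈ (rst p (⋃ w ∈ W, w.dom)).s := mem_rst.2 ⟨hc, hi⟩
    exact Cond.unique (hvw hb) (hv (hq h2)))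
  exact hwN u hu (down_meets hp hu')

end Pool.Agent.R582.Coh
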