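import Mathlib
import Pool.Agent.R582.Coh.Names
import Pool.Agent.R582.Coh.Supp

set_option autoImplicit false

/-!
# The hypothesis is forced by adding many Cohen reals
-/

namespace Pool.Agent.R582.Coh

open Cardinal Set
open Pool.Agent.Helper292.SP (fnot fand fall fimp fiff fex fground meets IsFun mem_fex mem_fimp
  not_fex down_meets meets_cst meets_of_mem)
open Pool.Agent.H631R2 (CCC NoOnto PowLE meets_of_dense mem_fiff mem_fiff_meets Cond)

theorem mem_fex_self {P : Type} [Preorder P] {ι : Type} {φ : ι → Set P} {p : P} (i : ι)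
    (h : ∀ q ≤ p, q ∈ φ i) : p ∈ fex φ := mem_fex.mpr fun q hq => ⟨q, le_rfl, i, h q hq⟩

theorem isFun_cst {P X Y : Type} [Preorder P] (f : X → Y) (p : P) :
    p ∈ IsFun (fun x y => {_p : P | f x = y}) := by
  refine ⟨fun x => mem_fex_self (f x) fun q _ => ?_, fun x y y' => mem_fimp.mpr fun q _ hq =>
    ⟨q, le_rfl, ?_⟩⟩
  · rw [meets_cst]
  · obtain ⟨h1, h2⟩ := hq
    rw [meets_cst] at h1 h2
    exact h1.symm.trans h2

section

variable {K : Type}

/-- the names of the Cohen reals -/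
def cn (i : K) (n : ℕ) : Set (Cond (K × ℕ)) := {p | ((i, n), true) ∈ p.s}

theorem cn_open (i : K) (n : ℕ) : ∀ q ∈ cn i n, ∀ r ≤ q, r ∈ cn i n := fun _ hq _ hr => hr hq

theorem meets_cn {i : K} {n : ℕ} {p : Cond (K × ℕ)} (h : ((i, n), true) ∈ p.s) :
    p ∈ meets (cn i n) := meets_of_mem (cn_open i n) h

theorem not_meets_cn {i : K} {n : ℕ} {p : Cond (K × ℕ)} (h : ((i, n), false) ∈ p.s) :
    p ∉ meets (cn i n) := by
  intro hp
  obtain ⟨r, hr, s, hs, hrs⟩ := hp p le_rfl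
  exact r.fn _ (hrs hs) (hr h)

theorem ini_cn {i : K} {s : List Bool} {p : Cond (K × ℕ)}
    (h : ∀ k (hk : k < s.length), ((i, k), s[k]) ∈ p.s) : p ∈ IniN s (cn i) := by
  intro k hk
  refine mem_fiff.mpr ⟨fun q hq hqm => ?_, fun q hq hqm => ?_⟩
  · refine ⟨q, le_rfl, ?_⟩
    show s[k] = true
    by_contra hcon
    have h1 : s[k] = false := by simpa using hcon
    have h2 := hq (h k hk)
    rw [h1] at h2
    exact not_meets_cn h2 hqm
  · have h1 : s[k] = true := hqm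
    have h2 := hq (h k hk)
    rw [h1] at h2
    exact ⟨q, le_rfl, meets_cn h2⟩

open Classical in
/-- the information of a finite sequence -/
theorem exists_fill (u : Cond (K × ℕ)) (i : K) (N : ℕ) (hN : ∀ m, (i, m) ∈ u.dom → m < N) :
    ∃ s : List Bool, s.length = N ∧ ∀ m b, ((i, m), b) ∈ u.s → ∃ h : m < s.length, s[m] = b := by
  refine ⟨List.ofFn fun m : Fin N => decide (((i, (m : ℕ)), true) ∈ u.s), by simp, ?_⟩
  intro m b hb
  have hm : m < N := hN m (Cond.mem_dom.mpr ⟨b, hb⟩)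
  refine ⟨by simpa using hm, ?_⟩
  rw [List.getElem_ofFn]
  cases b
  · simp only [decide_eq_false_iff_not]
    intro h
    exact u.fn _ h hb
  · simpa using hb

open Classical in
/-- adding the information of two finite sequences -/
theorem exists_add (v : Cond (K × ℕ)) {i j : K} (hij : i ≠ j) (s t : List Bool)
    (hv : ∀ x ∈ v.s, x.1.1 ≠ i ∧ x.1.1 ≠ j) : ∃ w : Cond (K × ℕ), w ≤ v ∧
      (∀ k (hk : k < s.length), ((i, k), s[k]) ∈ w.s) ∧
      (∀ k (hk : k < t.length), ((j, k), t[k]) ∈ w.s) := by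
  refine ⟨⟨v.s ∪ (Finset.univ.image fun k : Fin s.length => ((i, (k : ℕ)), s[k])) ∪
    (Finset.univ.image fun k : Fin t.length => ((j, (k : ℕ)), t[k])), ?_⟩, ?_, ?_, ?_⟩
  · rintro ⟨l, m⟩ h1 h2
    simp only [Finset.mem_union, Finset.mem_image, Finset.mem_univ, true_and, Prod.mk.injEq] at h1 h2
    rcases h1 with (h1 | ⟨k, ⟨h1, h3⟩, h5⟩) | ⟨k, ⟨h1, h3⟩, h5⟩ <;>
      rcases h2 with (h2 | ⟨k', ⟨h2, h4⟩, h6⟩) | ⟨k', ⟨h2, h4⟩, h6⟩
    · exact v.fn _ h1 h2
    · exact (hv _ h1).1 h2.symm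
    · exact (hv _ h1).2 h2.symm
    · exact (hv _ h2).1 h1.symm
    · have : k = k' := Fin.ext (h3.trans h4.symm)
      subst this
      rw [h5] at h6
      exact absurd h6 (by simp)
    · exact hij (h1.trans h2.symm)
    · exact (hv _ h2).2 h1.symm
    · exact hij (h2.trans h1.symm)
    · have : k = k' := Fin.ext (h3.trans h4.symm)
      subst this
      rw [h5] at h6
      exact absurd h6 (by simp)
  · intro x hx
    exact Finset.mem_union_left _ (Finset.mem_union_left _ hx)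
  · intro k hk
    refine Finset.mem_union_left _ (Finset.mem_union_right _ ?_)
    exact Finset.mem_image.mpr ⟨⟨k, hk⟩, Finset.mem_univ _, rfl⟩
  · intro k hk
    refine Finset.mem_union_right _ ?_
    exact Finset.mem_image.mpr ⟨⟨k, hk⟩, Finset.mem_univ _, rfl⟩

theorem exists_fresh (q : Cond (K × ℕ)) (i j : K) : ∃ n, (i, n) ∉ q.dom ∧ (j, n) ∉ q.dom := by
  have h1 : ((fun n : ℕ => (i, n)) ⁻¹' q.dom).Finite :=
    q.dom_finite.preimage (Function.Injective.injOn fun a b h => (Prod.mk.inj h).2)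
  have h2 : ((fun n : ℕ => (j, n)) ⁻¹' q.dom).Finite :=
    q.dom_finite.preimage (Function.Injective.injOn fun a b h => (Prod.mk.inj h).2)
  obtain ⟨n, hn⟩ := (h1.union h2).infinite_compl.nonempty
  rw [mem_compl_iff, mem_union, not_or] at hn
  exact ⟨n, hn.1, hn.2⟩

/-- The Cohen reals are different. -/
theorem cn_distinct {i j : K} (hij : i ≠ j) (p : Cond (K × ℕ)) :
    p ∈ fnot (fall fun n : ℕ => fiff (meets (cn i n)) (meets (cn j n))) := by
  intro q _ hq
  obtain ⟨n, hi, hj⟩ := exists_fresh q i j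
  obtain ⟨r, hr, hr1, hr2⟩ := Cond.exists_ext q hi true
  have hj' : (j, n) ∉ r.dom := by
    intro h
    obtain ⟨b, hb⟩ := Cond.mem_dom.mp h
    rcases hr2 _ hb with h' | h'
    · exact hij (Prod.mk.inj (Prod.mk.inj h').1).1.symm
    · exact hj (Cond.mem_dom.mpr ⟨b, h'⟩)
  obtain ⟨r', hr', hr3, -⟩ := Cond.exists_ext r hj' false
  have h1 := (mem_fiff_meets.mp (hq n) r' (hr'.trans hr)).mp (meets_cn (hr' hr1))
  exact not_meets_cn hr3 h1

/-- The pairs of Cohen reals with indices outside a countable set are generic. -/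
theorem cn_generic [Nonempty K] (D : ℕ → List Bool → List Bool → Set (Cond (K × ℕ)))
    (q : Cond (K × ℕ))
    (hq : q ∈ fall fun n : ℕ => fall fun s : List Bool => fall fun t : List Bool =>
        fex fun s' : List Bool => fex fun t' : List Bool =>
          fand (fground (s <+: s' ∧ t <+: t')) (meets (D n s' t'))) :
    ∃ a : ℕ → K, ∀ i j, i ≠ j → (∀ n, a n ≠ i) → (∀ n, a n ≠ j) → ∀ n, ∀ u ≤ q,
      ∃ w ≤ u, ∃ s t, w ∈ meets (D n s t) ∧ w ∈ IniN s (cn i) ∧ w ∈ IniN t (cn j) := by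
  choose S hSc hS using fun (n : ℕ) (s t : List Bool) => exists_support (D n s t)
  have hAc : (Prod.fst '' ((⋃ n, ⋃ s, ⋃ t, S n s t) ∪ q.dom) ∪ {Classical.arbitrary K}).Countable := by
    refine Set.Countable.union (Set.Countable.image (Set.Countable.union ?_
      q.dom_finite.countable) _) (countable_singleton _)
    exact countable_iUnion fun n => countable_iUnion fun s => countable_iUnion fun t => hSc n s t
  obtain ⟨a, ha⟩ := hAc.exists_eq_range ⟨Classical.arbitrary K, Or.inr rfl⟩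
  have haS : ∀ n s t, ∀ x ∈ S n s t, ∃ m, a m = x.1 := by
    intro n s t x hx
    have : x.1 ∈ Set.range a := by
      rw [← ha]
      exact Or.inl ⟨x, Or.inl (mem_iUnion.2 ⟨n, mem_iUnion.2 ⟨s, mem_iUnion.2 ⟨t, hx⟩⟩⟩), rfl⟩
    exact this
  have haq : ∀ x ∈ q.dom, ∃ m, a m = x.1 := by
    intro x hx
    have : x.1 ∈ Set.range a := by
      rw [← ha]
      exact Or.inl ⟨x, Or.inr hx, rfl⟩
    exact this
  refine ⟨a, fun i j hij hi hj n u hu => ?_⟩
  -- the bounds
  have hb : ∀ i : K, ∃ N, ∀ m, (i, m) ∈ u.dom → m < N := by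
    intro i
    have h1 : ((fun n : ℕ => (i, n)) ⁻¹' u.dom).Finite :=
      u.dom_finite.preimage (Function.Injective.injOn fun a b h => (Prod.mk.inj h).2)
    obtain ⟨N, hN⟩ := h1.bddAbove
    exact ⟨N + 1, fun m hm => Nat.lt_succ_of_le (hN hm)⟩
  obtain ⟨N, hN⟩ := hb i
  obtain ⟨M, hM⟩ := hb j
  obtain ⟨s0, hs0, hs0'⟩ := exists_fill u i N hN
  obtain ⟨t0, ht0, ht0'⟩ := exists_fill u j M hM
  set Z : Set (K × ℕ) := {x | x.1 ≠ i ∧ x.1 ≠ j} with hZ
  have h0 : rst u Z ≤ q := by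
    intro x hx
    refine mem_rst.2 ⟨hu hx, ?_⟩
    obtain ⟨m, hm⟩ := haq x.1 (Cond.mem_dom.2 ⟨x.2, hx⟩)
    exact ⟨fun h => hi m (hm.trans h), fun h => hj m (hm.trans h)⟩
  obtain ⟨v, hv, s', hv'⟩ := mem_fex.mp (hq n s0 t0) (rst u Z) h0
  obtain ⟨v0, hv0, t', hv0', hv1⟩ := mem_fex.mp hv' v le_rfl
  obtain ⟨hs', ht'⟩ := hv0'
  have h2 : rst v0 Z ∈ meets (D n s' t') := by
    refine down_meets (hS n s' t' v0 hv1) (rst_anti ?_)
    intro x hx
    obtain ⟨m, hm⟩ := haS n s' t' x hx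
    exact ⟨fun h => hi m (hm.trans h), fun h => hj m (hm.trans h)⟩
  have h3 : rst v0 Z ≤ rst u Z := by
    intro x hx
    exact mem_rst.2 ⟨(hv0.trans hv) hx, (mem_rst.1 hx).2⟩
  obtain ⟨w, hw, hws, hwt⟩ := exists_add (rst v0 Z) hij s' t' fun x hx => (mem_rst.1 hx).2
  refine ⟨w, ?_, s', t', down_meets h2 hw, ini_cn hws, ini_cn hwt⟩
  rintro ⟨⟨l, m⟩, b⟩ hx
  by_cases hl : l = i
  · subst hl
    obtain ⟨h, h'⟩ := hs0' m b hx
    have h4 := hws m (h.trans_le hs'.length_le)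
    rwa [← hs'.getElem h, h'] at h4
  by_cases hl' : l = j
  · subst hl'
    obtain ⟨h, h'⟩ := ht0' m b hx
    have h4 := hwt m (h.trans_le ht'.length_le)
    rwa [← ht'.getElem h, h'] at h4
  · exact hw (h3 (mem_rst.2 ⟨hx, hl, hl'⟩))

end

end Pool.Agent.R582.Coh
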