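import Mathlib
import Pool.Agent.R582.Coh.Forced

set_option autoImplicit false

/-!
# A forcing notion which forces the hypothesis
-/

namespace Pool.Agent.R582.Coh

open Cardinal Set
open Pool.Agent.Helper292.SP (fnot fand fall fimp fiff fex fground meets IsFun mem_fex mem_fimp
  not_fex down_meets meets_cst meets_of_mem exists_kappa exists_lev IsFun_tot IsFun_fun om_bdd)
open Pool.Agent.H631R2 (CCC NoOnto PowLE meets_of_dense mem_fiff mem_fiff_meets Cond)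

theorem mk_cond_le {I : Type} (hI : ℵ₀ ≤ #I) : #(Cond I) ≤ #I := by
  have h1 : #(Cond I) ≤ #(Finset (I × Bool)) :=
    Cardinal.mk_le_of_injective (f := Cond.s) (by
      rintro ⟨s, hs⟩ ⟨t, ht⟩ h
      simp only at h
      subst h
      rfl)
  have h2 : #(I × Bool) = #I := by
    rw [Cardinal.mk_prod, Cardinal.lift_id, Cardinal.lift_id]
    refine Cardinal.mul_eq_left hI ?_ (by simp)
    exact (Cardinal.mk_le_aleph0).trans hI
  haveI : Infinite (I × Bool) := by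
    rw [Cardinal.infinite_iff, h2]; exact hI
  rw [Cardinal.mk_finset_of_infinite, h2] at h1
  exact h1

/-- countable powers of singular strong limit cardinals of cofinality `ω₁` -/
theorem fun_le {κ : Cardinal.{0}} {K : Type} (hK : #K = κ) (h0 : (2 : Cardinal.{0}) ^ ℵ₀ < κ)
    (h2 : ∀ μ < κ, (2 : Cardinal.{0}) ^ μ < κ)
    (lev : K → (ℵ₁ : Cardinal.{0}).ord.ToType) (hlev : ∀ i, #{a | lev a ≤ i} < κ) :
    #(ℕ → K) ≤ κ := by
  have hκ : ℵ₀ < κ := (Cardinal.cantor ℵ₀).trans h0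
  have h1 : (ℵ₁ : Cardinal.{0}) ≤ κ := by
    rw [← Cardinal.succ_aleph0]; exact Order.succ_le_of_lt hκ
  have hb : ∀ f : ℕ → K, ∃ i, ∀ n, lev (f n) ≤ i := by
    intro f
    obtain ⟨g, hg⟩ := om_bdd (Set.range fun n => lev (f n)) (countable_range _)
    exact ⟨g, fun n => hg _ ⟨n, rfl⟩⟩
  choose b hb using hb
  let F : (ℕ → K) → Σ i : (ℵ₁ : Cardinal.{0}).ord.ToType, ℕ → {a | lev a ≤ i} :=
    fun f => ⟨b f, fun n => ⟨f n, hb f n⟩⟩
  have hF : Function.Injective F := by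
    intro f g h
    have key : ∀ x y : Σ i : (ℵ₁ : Cardinal.{0}).ord.ToType, ℕ → {a | lev a ≤ i}, x = y →
        ∀ n, (x.2 n : K) = y.2 n := by
      rintro x y rfl n; rfl
    funext n
    exact key _ _ h n
  refine (Cardinal.mk_le_of_injective hF).trans ?_
  rw [Cardinal.mk_sigma]
  have h3 : ∀ i : (ℵ₁ : Cardinal.{0}).ord.ToType, #(ℕ → {a | lev a ≤ i}) ≤ κ := by
    intro i
    rw [← Cardinal.power_def, Cardinal.mk_nat]
    have h4 : #{a | lev a ≤ i} * ℵ₀ < κ := Cardinal.mul_lt_of_lt hκ.le (hlev i) hκ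
    have h5 : #{a | lev a ≤ i} ^ (ℵ₀ : Cardinal.{0}) ≤ 2 ^ (#{a | lev a ≤ i} * ℵ₀) := by
      rw [Cardinal.power_mul]
      exact Cardinal.power_le_power_right (Cardinal.cantor _).le
    exact h5.trans (h2 _ h4).le
  refine (Cardinal.sum_le_sum _ (fun _ => κ) h3).trans ?_
  rw [Cardinal.sum_const', Cardinal.mk_toType, Cardinal.card_ord]
  exact (mul_le_mul' h1 le_rfl).trans (Cardinal.mul_eq_self hκ.le).le

theorem ccc_bound {P W : Type} [Preorder P] (hP : CCC P) (a : ℕ → W → Set P) {q : P}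
    (hq : q ∈ IsFun a) : ∃ A : Set W, A.Countable ∧ ∀ n w, ∀ r ≤ q, r ∈ meets (a n w) → w ∈ A := by
  refine ⟨⋃ n, {w | ∃ r ≤ q, r ∈ meets (a n w)}, countable_iUnion fun n =>
    values_countable hP hq n, fun n w r hr h => mem_iUnion.2 ⟨n, r, hr, h⟩⟩

theorem forced : ∃ (K W : Type) (_ : LinearOrder W) (ρ : K → W) (ι : W → K) (P : Type)
    (_ : Preorder P), Nonempty P ∧ ∀ p : P, p ∈ HypothesisN P ρ ι := by
  obtain ⟨κ, hκ1, hcof, hκ2⟩ := exists_kappa ℵ₀ le_rfl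
  have hκ0 : ℵ₀ < κ := (Cardinal.cantor ℵ₀).trans hκ1
  have h := exists_lev ℵ₀ κ le_rfl hκ0 hcof
  rw [Cardinal.succ_aleph0] at h
  obtain ⟨lev, f, -, hlev, hf, -⟩ := h
  have hK : #κ.ord.ToType = κ := by rw [Cardinal.mk_toType, Cardinal.card_ord]
  have hW : #(ℵ₁ : Cardinal.{0}).ord.ToType = ℵ₁ := by rw [Cardinal.mk_toType, Cardinal.card_ord]
  haveI : NoMaxOrder (ℵ₁ : Cardinal.{0}).ord.ToType := Cardinal.noMaxOrder (aleph0_le_aleph 1)
  have hlev' : ∀ i, #{a | lev a ≤ i} < κ := by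
    intro i
    obtain ⟨j, hj⟩ := exists_gt i
    exact (Cardinal.mk_le_mk_of_subset fun a ha => lt_of_le_of_lt ha hj).trans_lt (hlev j)
  have hWκ : (ℵ₁ : Cardinal.{0}) < κ := by
    refine lt_of_le_of_lt ?_ hκ1
    rw [← Cardinal.succ_aleph0]
    exact Order.succ_le_of_lt (Cardinal.cantor ℵ₀)
  have hKinf : ℵ₀ ≤ #κ.ord.ToType := by rw [hK]; exact hκ0.le
  haveI : Nonempty κ.ord.ToType := Cardinal.mk_ne_zero_iff.1 (by
    rw [hK]; exact (Cardinal.aleph0_pos.trans hκ0).ne')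
  refine ⟨κ.ord.ToType, (ℵ₁ : Cardinal.{0}).ord.ToType, inferInstance, lev, f,
    Cond (κ.ord.ToType × ℕ), inferInstance, ⟨⟨∅, by simp⟩⟩, fun p => ?_⟩
  refine ⟨fun w => ?_, ?_, hf.injective, fun a => ?_, ?_, ?_⟩
  · exact noOnto' ccc_cond (by rw [hK]; exact hκ0) (by rw [hK]; exact hlev' w) p
  · exact noOnto' ccc_cond (by rw [hK]; exact hκ0) (by rw [hK, hW]; exact hWκ) p
  · refine mem_fimp.mpr fun q _ hq => ⟨q, le_rfl, ?_⟩
    obtain ⟨A, hA, hA'⟩ := ccc_bound ccc_cond a hq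
    obtain ⟨b, hb⟩ := om_bdd A hA
    refine mem_fex_self b fun r hr n w => mem_fimp.mpr fun s hs hsw => ⟨s, le_rfl, ?_⟩
    exact hb w (hA' n w s (hs.trans hr) hsw)
  · refine CCC.powLE ccc_cond ?_ p
    have h1 : #(κ.ord.ToType × ℕ) = κ := by
      rw [Cardinal.mk_prod, Cardinal.lift_id, Cardinal.lift_id, hK, Cardinal.mk_nat]
      exact Cardinal.mul_eq_left hκ0.le hκ0.le Cardinal.aleph0_ne_zero
    have h2 : #(Option (Cond (κ.ord.ToType × ℕ))) ≤ κ := by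
      rw [Cardinal.mk_option]
      have h3 : #(Cond (κ.ord.ToType × ℕ)) ≤ κ := (mk_cond_le (by rw [h1]; exact hκ0.le)).trans h1.le
      exact (add_le_add h3 (Cardinal.one_le_aleph0.trans hκ0.le)).trans
        (Cardinal.add_eq_self hκ0.le).le
    have h3 : #(ℕ → κ.ord.ToType) ≤ κ := fun_le hK hκ1 hκ2 lev hlev'
    have h3' : κ ^ (ℵ₀ : Cardinal.{0}) ≤ κ := by
      rw [← Cardinal.power_def, Cardinal.mk_nat, hK] at h3
      exact h3
    rw [hK, ← Cardinal.power_def, ← Cardinal.power_def, Cardinal.mk_nat]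
    calc (#(Option (Cond (κ.ord.ToType × ℕ))) ^ (ℵ₀ : Cardinal.{0})) ^ (ℵ₀ : Cardinal.{0})
        ≤ (κ ^ (ℵ₀ : Cardinal.{0})) ^ (ℵ₀ : Cardinal.{0}) :=
          Cardinal.power_le_power_right (Cardinal.power_le_power_right h2)
      _ ≤ κ ^ (ℵ₀ : Cardinal.{0}) := Cardinal.power_le_power_right h3'
      _ ≤ κ := h3'
  · refine mem_fex_self cn fun q _ => ⟨fun i j => mem_fimp.mpr fun r _ hr => ⟨r, le_rfl, ?_⟩,
      fun D => mem_fimp.mpr fun r _ hr => ⟨r, le_rfl, ?_⟩⟩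
    · exact cn_distinct hr r
    · obtain ⟨a, ha⟩ := cn_generic D r hr
      refine mem_fex_self (fun n k => {_p | a n = k}) fun s hs => ⟨isFun_cst a s, fun i j => ?_⟩
      refine mem_fimp.mpr fun s1 hs1 hij => ⟨s1, le_rfl, mem_fimp.mpr fun s2 hs2 hi =>
        ⟨s2, le_rfl, mem_fimp.mpr fun s3 hs3 hj => ⟨s3, le_rfl, fun n => mem_fex.mpr fun s4 hs4 =>
          ?_⟩⟩⟩
      have hi' : ∀ n, a n ≠ i := by
        intro n h
        refine hi n s2 le_rfl ?_
        rw [meets_cst]; exact h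
      have hj' : ∀ n, a n ≠ j := by
        intro n h
        refine hj n s3 le_rfl ?_
        rw [meets_cst]; exact h
      obtain ⟨w, hw, s', t', h1, h2, h3⟩ := ha i j hij hi' hj' n s4
        (hs4.trans (hs3.trans (hs2.trans (hs1.trans hs))))
      refine ⟨w, hw, s', mem_fex.mpr fun w' hw' => ⟨w', le_rfl, t', down_meets h1 hw', ?_, ?_⟩⟩
      · intro k hk
        have h4 := h2 k hk
        exact ⟨down_fnot h4.1 hw', down_fnot h4.2 hw'⟩
      · intro k hk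
        have h4 := h3 k hk
        exact ⟨down_fnot h4.1 hw', down_fnot h4.2 hw'⟩

end Pool.Agent.R582.Coh
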